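import Pool.Agent.Q83.FF.Stm

/-!
# Project FF of helper83: coefficients of the convolution and of the heat operator
-/

set_option autoImplicit false

namespace Pool.Agent.Q206.FF

open Polynomial Finset Pool.Agent.Q83.FF

/-! ### The convolution -/

theorem conv_coeff_gt {d m : ℕ} (h : d < m) (p q : ℝ[X]) : (conv d p q).coeff m = 0 := by
  rw [conv, finsetSum_coeff]
  apply Finset.sum_eq_zero
  intro i _
  rw [coeff_C_mul, coeff_X_pow, if_neg (by omega), mul_zero]

/-- the coefficients of the convolution -/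
theorem conv_coeff {d m : ℕ} (h : m ≤ d) (p q : ℝ[X]) : (conv d p q).coeff m =
    ∑ jk ∈ antidiagonal (d - m), ((Nat.factorial (d - jk.1) : ℝ) * (Nat.factorial (d - jk.2) : ℝ))
      / ((Nat.factorial d : ℝ) * (Nat.factorial m : ℝ)) * p.coeff (d - jk.1) * q.coeff (d - jk.2) := by
  rw [conv, finsetSum_coeff, Finset.sum_eq_single (d - m)]
  · have h1 : d - (d - m) = m := by omega
    rw [coeff_C_mul, coeff_X_pow, if_pos h1.symm, mul_one, h1, Finset.mul_sum]
    apply Finset.sum_congr rfl
    intro jk hjk
    have h2 : jk.1 + jk.2 = d - m := mem_antidiagonal.1 hjk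
    have h3 : ((-1 : ℝ)) ^ (d - m) * (-1) ^ jk.1 * (-1) ^ jk.2 = 1 := by
      rw [← h2, mul_assoc, ← pow_add, ← mul_pow]
      norm_num
    linear_combination (((Nat.factorial (d - jk.1) : ℝ) * (Nat.factorial (d - jk.2) : ℝ))
      / ((Nat.factorial d : ℝ) * (Nat.factorial m : ℝ)) * p.coeff (d - jk.1) *
        q.coeff (d - jk.2)) * h3
  · intro i hi hne
    rw [coeff_C_mul, coeff_X_pow, if_neg, mul_zero]
    have := Finset.mem_range.1 hi
    omega
  · intro hcon
    exact absurd (Finset.mem_range.2 (by omega)) hcon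

theorem conv_comm (d : ℕ) (p q : ℝ[X]) : conv d p q = conv d q p := by
  ext m
  by_cases h : m ≤ d
  · rw [conv_coeff h, conv_coeff h, ← Finset.Nat.sum_antidiagonal_swap]
    apply Finset.sum_congr rfl
    intro jk _
    simp only [Prod.fst_swap, Prod.snd_swap]
    ring
  · rw [conv_coeff_gt (by omega), conv_coeff_gt (by omega)]

theorem conv_add_left (d : ℕ) (p p' q : ℝ[X]) :
    conv d (p + p') q = conv d p q + conv d p' q := by
  ext m
  rw [coeff_add]
  by_cases h : m ≤ d
  · rw [conv_coeff h, conv_coeff h, conv_coeff h, ← Finset.sum_add_distrib]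
    apply Finset.sum_congr rfl
    intro jk _
    rw [coeff_add]
    ring
  · rw [conv_coeff_gt (by omega), conv_coeff_gt (by omega), conv_coeff_gt (by omega), add_zero]

theorem conv_natDegree (d : ℕ) (p q : ℝ[X]) : (conv d p q).natDegree ≤ d := by
  rw [natDegree_le_iff_coeff_eq_zero]
  intro m hm
  exact conv_coeff_gt hm p q

theorem conv_coeff_top (d : ℕ) (p q : ℝ[X]) : (conv d p q).coeff d = p.coeff d * q.coeff d := by
  rw [conv_coeff le_rfl, Nat.sub_self]
  simp only [Finset.Nat.antidiagonal_zero, Finset.sum_singleton, Nat.sub_zero]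
  have := Nat.factorial_ne_zero d
  field_simp

/-- the convolution as a differential operator -/
theorem convop (d : ℕ) (p q : ℝ[X]) (hp : p.natDegree ≤ d) :
    conv d p q = ∑ k ∈ range (d + 1),
      C ((Nat.factorial (d - k) : ℝ) / (Nat.factorial d : ℝ) * q.coeff (d - k))
        * derivative^[k] p := by
  have hp0 : ∀ n, d < n → p.coeff n = 0 := fun n hn => coeff_eq_zero_of_natDegree_lt (by omega)
  ext m
  rw [finsetSum_coeff]
  simp only [coeff_C_mul, coeff_iterate_derivative, nsmul_eq_mul]
  by_cases h : m ≤ d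
  · rw [conv_coeff h, ← Finset.Nat.sum_antidiagonal_swap,
      Finset.Nat.sum_antidiagonal_eq_sum_range_succ_mk]
    symm
    rw [← Finset.sum_subset (Finset.range_subset_range.2 (show (d - m).succ ≤ d + 1 by omega))]
    · apply Finset.sum_congr rfl
      intro k hk
      have hk' : k ≤ d - m := by
        have := Finset.mem_range.1 hk
        omega
      simp only [Prod.fst_swap, Prod.snd_swap]
      have e1 : d - (d - m - k) = m + k := by omega
      rw [e1]
      have e2 : (Nat.factorial m : ℝ) * ((m + k).descFactorial k : ℝ) = (Nat.factorial (m + k) : ℝ) := by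
        have := Nat.factorial_mul_descFactorial (Nat.le_add_left k m)
        rw [Nat.add_sub_cancel] at this
        exact_mod_cast this
      rw [← e2]
      have h4 := Nat.factorial_ne_zero d
      have h5 := Nat.factorial_ne_zero m
      field_simp
    · intro k hk hk2
      have h1 := Finset.mem_range.1 hk
      have h2 : ¬ k < (d - m).succ := fun h => hk2 (Finset.mem_range.2 h)
      rw [hp0 (m + k) (by omega)]
      ring
  · rw [conv_coeff_gt (by omega), Finset.sum_eq_zero]
    intro k _
    rw [hp0 (m + k) (by omega)]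
    ring

/-! ### Root polynomials -/

theorem P_monic {d : ℕ} (a : Fin d → ℝ) : (P a).Monic :=
  monic_prod_of_monic _ _ fun i _ => monic_X_sub_C (a i)

theorem P_natDegree {d : ℕ} (a : Fin d → ℝ) : (P a).natDegree = d := by
  rw [P, natDegree_prod_of_monic _ _ fun i _ => monic_X_sub_C (a i)]
  simp

theorem P_coeff_gt {d m : ℕ} (a : Fin d → ℝ) (h : d < m) : (P a).coeff m = 0 :=
  coeff_eq_zero_of_natDegree_lt (by rw [P_natDegree]; exact h)

theorem P_coeff_top {d : ℕ} (a : Fin d → ℝ) : (P a).coeff d = 1 := by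
  have := (P_monic a).coeff_natDegree
  rwa [P_natDegree] at this

theorem P_scale {d : ℕ} (a : Fin d → ℝ) (t : ℝ) : P (t • a) = (P a).scaleRoots t := by
  have key : ∀ s : Finset (Fin d), ∏ i ∈ s, (X - C ((t • a) i)) =
      (∏ i ∈ s, (X - C (a i))).scaleRoots t := by
    intro s
    induction s using Finset.induction_on with
    | empty =>
      rw [Finset.prod_empty, Finset.prod_empty]
      exact (scaleRoots_C t (1 : ℝ)).symm
    | insert i s hi ih =>
      rw [Finset.prod_insert hi, Finset.prod_insert hi, mul_scaleRoots_of_noZeroDivisors, ih]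
      congr 1
      ext m
      rw [coeff_scaleRoots, natDegree_X_sub_C]
      rcases m with _ | _ | m
      · simp [mul_comm]
      · simp [coeff_X, coeff_C]
      · simp [coeff_X, coeff_C]
  exact key Finset.univ

theorem P_smul_coeff {d : ℕ} (a : Fin d → ℝ) (t : ℝ) (m : ℕ) :
    (P (t • a)).coeff m = t ^ (d - m) * (P a).coeff m := by
  rw [P_scale, coeff_scaleRoots, P_natDegree, mul_comm]

/-! ### The heat operator -/

/-- the parameter of the heat operator -/
noncomputable def xx (d : ℕ) (s : ℝ) : ℝ := -(s / (2 * ((d : ℝ) - 1)))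

theorem xx_add (d : ℕ) (s t : ℝ) : xx d (s + t) = xx d s + xx d t := by
  unfold xx
  ring

theorem xx_mul (d : ℕ) (s t : ℝ) : xx d (t * s) = t * xx d s := by
  unfold xx
  ring

theorem heat_def (d : ℕ) (s : ℝ) (p : ℝ[X]) : heat d s p =
    ∑ k ∈ range (d + 1), C (xx d s ^ k / (Nat.factorial k : ℝ)) * derivative^[2 * k] p := rfl

/-- the coefficients -/
theorem heat_coeff (d : ℕ) (s : ℝ) (p : ℝ[X]) (m : ℕ) : (heat d s p).coeff m =
    ∑ k ∈ range (d + 1), xx d s ^ k / (Nat.factorial k : ℝ) *
      (((m + 2 * k).descFactorial (2 * k) : ℝ) * p.coeff (m + 2 * k)) := by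
  rw [heat_def, finsetSum_coeff]
  apply Finset.sum_congr rfl
  intro k _
  rw [coeff_C_mul, coeff_iterate_derivative, nsmul_eq_mul]

theorem heat_add (d : ℕ) (s : ℝ) (p q : ℝ[X]) : heat d s (p + q) = heat d s p + heat d s q := by
  ext m
  rw [coeff_add, heat_coeff, heat_coeff, heat_coeff, ← Finset.sum_add_distrib]
  apply Finset.sum_congr rfl
  intro k _
  rw [coeff_add]
  ring

theorem heat_zero (d : ℕ) (p : ℝ[X]) : heat d 0 p = p := by
  ext m
  rw [heat_coeff, Finset.sum_eq_single 0]
  · simp [xx]
  · intro k _ hk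
    have : xx d 0 = 0 := by simp [xx]
    rw [this, zero_pow hk]
    ring
  · intro h
    exact absurd (Finset.mem_range.2 (by omega)) h

theorem heat_C_mul (d : ℕ) (s e : ℝ) (p : ℝ[X]) : heat d s (C e * p) = C e * heat d s p := by
  ext m
  rw [coeff_C_mul, heat_coeff, heat_coeff, Finset.mul_sum]
  apply Finset.sum_congr rfl
  intro k _
  rw [coeff_C_mul]
  ring

theorem heat_C (d : ℕ) (s e : ℝ) : heat d s (C e) = C e := by
  ext m
  rw [heat_coeff, Finset.sum_eq_single 0]
  · simp
  · intro k _ hk
    rw [coeff_C, if_neg (by omega)]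
    ring
  · intro h
    exact absurd (Finset.mem_range.2 (by omega)) h

theorem heat_sum (d : ℕ) (s : ℝ) {ι : Type*} (S : Finset ι) (f : ι → ℝ[X]) :
    heat d s (∑ i ∈ S, f i) = ∑ i ∈ S, heat d s (f i) := by
  classical
  induction S using Finset.induction_on with
  | empty =>
    rw [Finset.sum_empty, Finset.sum_empty]
    have := heat_C d s 0
    rwa [C_0] at this
  | insert i S hi ih => rw [Finset.sum_insert hi, Finset.sum_insert hi, heat_add, ih]

theorem heat_natDegree (d : ℕ) (s : ℝ) (p : ℝ[X]) : (heat d s p).natDegree ≤ p.natDegree := by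
  rw [natDegree_le_iff_coeff_eq_zero]
  intro m hm
  rw [heat_coeff]
  apply Finset.sum_eq_zero
  intro k _
  rw [coeff_eq_zero_of_natDegree_lt (by omega)]
  ring

theorem heat_coeff_top (d : ℕ) (s : ℝ) (p : ℝ[X]) (hp : p.natDegree ≤ d) :
    (heat d s p).coeff d = p.coeff d := by
  rw [heat_coeff, Finset.sum_eq_single 0]
  · simp
  · intro k _ hk
    rw [coeff_eq_zero_of_natDegree_lt (by omega)]
    ring
  · intro h
    exact absurd (Finset.mem_range.2 (by omega)) h

theorem exp_add (x y : ℝ) (k : ℕ) : (x + y) ^ k / (Nat.factorial k : ℝ) =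
    ∑ m ∈ range (k + 1), x ^ m / (Nat.factorial m : ℝ) * (y ^ (k - m) / (Nat.factorial (k - m) : ℝ)) := by
  rw [add_pow, Finset.sum_div]
  apply Finset.sum_congr rfl
  intro m hm
  have h1 : m ≤ k := by
    have := Finset.mem_range.1 hm
    omega
  have h2 := Nat.choose_mul_factorial_mul_factorial h1
  have h3 : (k.choose m : ℝ) * (Nat.factorial m : ℝ) * (Nat.factorial (k - m) : ℝ) =
      (Nat.factorial k : ℝ) := by exact_mod_cast h2
  rw [← h3]
  have h4 := Nat.factorial_ne_zero m
  have h5 := Nat.factorial_ne_zero (k - m)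
  have h6 : (k.choose m : ℝ) ≠ 0 := by
    have := Nat.choose_pos h1
    positivity
  field_simp

theorem heat_heat (d : ℕ) (s t : ℝ) (p : ℝ[X]) (hp : p.natDegree ≤ d) :
    heat d s (heat d t p) = heat d (s + t) p := by
  have h0 : ∀ n, d < n → derivative^[n] p = 0 := fun n hn =>
    iterate_derivative_eq_zero (by omega)
  have h1 : heat d s (heat d t p) = ∑ m ∈ range (d + 1), ∑ k ∈ range (d + 1),
      C (xx d s ^ m / (Nat.factorial m : ℝ) * (xx d t ^ k / (Nat.factorial k : ℝ))) *
        derivative^[2 * (m + k)] p := by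
    rw [heat_def d s]
    apply Finset.sum_congr rfl
    intro m _
    rw [heat_def d t, iterate_derivative_sum, Finset.mul_sum]
    apply Finset.sum_congr rfl
    intro k _
    rw [iterate_derivative_C_mul, ← Function.iterate_add_apply, ← mul_assoc, ← C_mul, mul_add]
  rw [h1, heat_def]
  have h2 : ∀ m ∈ range (d + 1), ∑ k ∈ range (d + 1),
      C (xx d s ^ m / (Nat.factorial m : ℝ) * (xx d t ^ k / (Nat.factorial k : ℝ))) *
        derivative^[2 * (m + k)] p = ∑ k ∈ range (d + 1 - m),
      C (xx d s ^ m / (Nat.factorial m : ℝ) * (xx d t ^ k / (Nat.factorial k : ℝ))) *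
        derivative^[2 * (m + k)] p := by
    intro m _
    symm
    apply Finset.sum_subset (Finset.range_subset_range.2 (by omega))
    intro k _ hk
    have h3 : ¬ k < d + 1 - m := fun h => hk (Finset.mem_range.2 h)
    rw [h0 _ (by omega), mul_zero]
  rw [Finset.sum_congr rfl h2, ← Finset.sum_range_diag_flip (d + 1) fun m k =>
    C (xx d s ^ m / (Nat.factorial m : ℝ) * (xx d t ^ k / (Nat.factorial k : ℝ))) *
        derivative^[2 * (m + k)] p]
  apply Finset.sum_congr rfl
  intro k _
  rw [xx_add, exp_add, map_sum, Finset.sum_mul]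
  apply Finset.sum_congr rfl
  intro m hm
  have h3 : m + (k - m) = k := by
    have := Finset.mem_range.1 hm
    omega
  rw [h3]

/-- the heat operator commutes with derivatives -/
theorem heat_deriv (d : ℕ) (s : ℝ) (p : ℝ[X]) (k : ℕ) :
    derivative^[k] (heat d s p) = heat d s (derivative^[k] p) := by
  rw [heat_def, heat_def, iterate_derivative_sum]
  apply Finset.sum_congr rfl
  intro m _
  rw [iterate_derivative_C_mul, ← Function.iterate_add_apply, ← Function.iterate_add_apply,
    add_comm]

end Pool.Agent.Q206.FF
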