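import Pool.Agent.Q206.FF.Bas

/-!
# Project FF, jobs CONVOP and CONVBASIC
-/

set_option autoImplicit false

namespace Pool.Agent.Q206.FF

open Polynomial Finset Pool.Agent.Q83.FF

theorem t_convop : S_convop := convop

theorem conv_C (d : ℕ) (e : ℝ) (q : ℝ[X]) (hq : q.coeff d = 1) : conv d (C e) q = C e := by
  rw [convop d (C e) q (by simp), Finset.sum_eq_single 0]
  · have := Nat.factorial_ne_zero d
    rw [Nat.sub_zero, hq, div_self (by positivity)]
    simp
  · intro k _ hk
    rw [iterate_derivative_C (Nat.pos_of_ne_zero hk), mul_zero]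
  · intro h
    exact absurd (Finset.mem_range.2 (by omega)) h

theorem t_convbasic : S_convbasic := by
  refine ⟨conv_comm, conv_natDegree, ?_, ?_, ?_⟩
  · intro d p q hp hpd hq hqd
    have h1 : (conv d p q).coeff d = 1 := by
      have e1 : p.coeff d = 1 := by
        have := hp.coeff_natDegree
        rwa [hpd] at this
      have e2 : q.coeff d = 1 := by
        have := hq.coeff_natDegree
        rwa [hqd] at this
      rw [conv_coeff_top, e1, e2, mul_one]
    exact ⟨monic_of_natDegree_le_of_coeff_eq_one d (conv_natDegree d p q) h1,
      natDegree_eq_of_le_of_coeff_ne_zero (conv_natDegree d p q) (by rw [h1]; exact one_ne_zero)⟩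
  · intro d p q e hq hqd
    have e2 : q.coeff d = 1 := by
      have := hq.coeff_natDegree
      rwa [hqd] at this
    rw [conv_add_left, conv_C d e q e2]
  · intro d p hp
    rw [convop d p (X ^ d) hp, Finset.sum_eq_single 0]
    · have := Nat.factorial_ne_zero d
      rw [Nat.sub_zero, coeff_X_pow, if_pos rfl, div_self (by positivity)]
      simp
    · intro k hk hk0
      have := Finset.mem_range.1 hk
      rw [coeff_X_pow, if_neg (by omega)]
      simp
    · intro h
      exact absurd (Finset.mem_range.2 (by omega)) h

end Pool.Agent.Q206.FF
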