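import Pool.Agent.Q206.FF.Bas

/-!
# Project FF, jobs HEATALG and HEATCONV
-/

set_option autoImplicit false

namespace Pool.Agent.Q206.FF

open Polynomial Finset Pool.Agent.Q83.FF

theorem t_heatalg : S_heatalg := by
  refine ⟨heat_heat, heat_zero, heat_add, heat_C_mul, heat_C, heat_natDegree, ?_⟩
  intro d s p hp hpd
  have h1 : (heat d s p).coeff d = 1 := by
    rw [heat_coeff_top d s p hpd.le]
    have := hp.coeff_natDegree
    rwa [hpd] at this
  have h2 : (heat d s p).natDegree ≤ d := (heat_natDegree d s p).trans hpd.le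
  exact ⟨monic_of_natDegree_le_of_coeff_eq_one d h2 h1,
    natDegree_eq_of_le_of_coeff_ne_zero h2 (by rw [h1]; exact one_ne_zero)⟩

theorem conv_heat_left (d : ℕ) (s : ℝ) (p q : ℝ[X]) (hp : p.natDegree ≤ d) :
    conv d (heat d s p) q = heat d s (conv d p q) := by
  rw [convop d p q hp, convop d (heat d s p) q ((heat_natDegree d s p).trans hp), heat_sum]
  apply Finset.sum_congr rfl
  intro k _
  rw [heat_C_mul, heat_deriv]

theorem t_heatconv : S_heatconv := by
  intro d s t p q hp hq
  rw [conv_heat_left d s p _ hp, conv_comm d p, conv_heat_left d t q p hq, conv_comm d q p,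
    heat_heat d s t _ (conv_natDegree d p q)]

end Pool.Agent.Q206.FF
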