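import Pool.Agent.Q206.FF.Bas

/-!
# Project FF, jobs SMUL and HEATSCALE
-/

set_option autoImplicit false

namespace Pool.Agent.Q206.FF

open Polynomial Finset Pool.Agent.Q83.FF

theorem t_smul : S_smul := by
  refine ⟨fun d a t k hk => ?_, fun d a b c t h => ?_⟩
  · rw [P_smul_coeff]
    congr 2
    omega
  · ext m
    by_cases hm : m ≤ d
    · rw [P_smul_coeff, h, conv_coeff hm, conv_coeff hm, Finset.mul_sum]
      apply Finset.sum_congr rfl
      intro jk hjk
      have h2 : jk.1 + jk.2 = d - m := mem_antidiagonal.1 hjk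
      rw [P_smul_coeff, P_smul_coeff]
      have e1 : d - (d - jk.1) = jk.1 := by omega
      have e2 : d - (d - jk.2) = jk.2 := by omega
      rw [e1, e2, ← h2, pow_add]
      ring
    · rw [P_coeff_gt _ (by omega), conv_coeff_gt (by omega)]

theorem t_heatscale : S_heatscale := by
  intro d a c s t h
  ext m
  rw [P_smul_coeff, h, heat_coeff, heat_coeff, Finset.mul_sum]
  apply Finset.sum_congr rfl
  intro k _
  rw [P_smul_coeff, xx_mul]
  by_cases hm : m + 2 * k ≤ d
  · have e1 : t ^ (d - m) = t ^ (d - (m + 2 * k)) * (t ^ 2) ^ k := by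
      rw [← pow_mul, ← pow_add]
      congr 1
      omega
    rw [e1, mul_pow]
    ring
  · rw [P_coeff_gt a (by omega)]
    ring

end Pool.Agent.Q206.FF
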